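import Pool.Agent.Helper66.GP.PP

/-! # IP: interpolation -/

universe u

namespace Pool.Agent.Helper58.GP

open ZFSet Pool.Agent.Helper66.SC Pool.Agent.Helper22.SC Pool.Agent.Helper66.GP

theorem ip_leF : URel KZ.{u} (fun _ _ (p : ZFSet.{u} × ZFSet.{u}) => LeF p.1 p.2) := by
  refine URel.congr (R := fun _ _ (p : ZFSet.{u} × ZFSet.{u}) => ∀ t ∈ p.1, ∀ t' ∈ p.2,
    t = pair (pfst t) (psnd t) → t' = pair (pfst t') (psnd t') → pfst t = pfst t' →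
      psnd t ⊆ psnd t') ?_ ?_
  · apply_rules (transparency := .reducible) (maxDepth := 400) using is_poly
  · intro N A hN p hp
    constructor
    · intro h n m m' h1 h2
      have h3 := h _ h1 _ h2
      rw [pfst_pair, psnd_pair, pfst_pair, psnd_pair] at h3
      exact h3 rfl rfl rfl
    · intro h t ht t' ht' e e' e''
      rw [e] at ht
      rw [e', ← e''] at ht'
      exact h _ _ _ ht ht'

theorem ip_om {M : Set ZFSet.{u}} (hM : Ctm M) : (ZFSet.omega.prod ZFSet.omega : ZFSet.{u}) ∈ M := by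
  have h : U KZ.{u} (fun _ _ (_ : PUnit.{u + 2}) => (ZFSet.omega.prod ZFSet.omega : ZFSet.{u})) := by
    apply_rules (transparency := .reducible) (maxDepth := 400) using is_poly
  have := h.closed hM.zf (a := PUnit.unit) (by simp)
  simpa using this

theorem ip_w {M : Set ZFSet.{u}} (hM : Ctm M) {Q D q : ZFSet.{u}} (hQ : Q ∈ M) (hD : D ∈ M) (hq : q ∈ M) :
    (ZFSet.omega.prod ZFSet.omega : ZFSet.{u}).sep (fun t => (∃ r ∈ Q, q ⊆ r ∧ pair t r ∈ D) ∧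
      ∀ m ∈ psnd t, ¬ ∃ r ∈ Q, q ⊆ r ∧ pair (pair (pfst t) m) r ∈ D) ∈ M := by
  have h : U KZ.{u} (fun _ _ (a : (ZFSet.{u} × ZFSet.{u}) × ZFSet.{u}) =>
      (ZFSet.omega.prod ZFSet.omega : ZFSet.{u}).sep (fun t => (∃ r ∈ a.1.1, a.2 ⊆ r ∧ pair t r ∈ a.1.2) ∧
      ∀ m ∈ psnd t, ¬ ∃ r ∈ a.1.1, a.2 ⊆ r ∧ pair (pair (pfst t) m) r ∈ a.1.2)) := by
    apply_rules (transparency := .reducible) (maxDepth := 400) using is_poly
  have := h.closed hM.zf (a := ((Q, D), q)) (by simp [hQ, hD, hq])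
  simpa using this

open Classical in
theorem ip1 {M : Set ZFSet.{u}} {P Q F K x y : ZFSet.{u}} (hM : Ctm M) (hP : P ∈ M) (hQ : Q ∈ M)
    (hF : IsGeneric M P F) (hK : IsGeneric (Ext M F) Q K) (hx : x ∈ Ext M F) (hy : y ∈ Ext M K)
    (fy : FF y) (hxy : LeF x y) : ∃ w ∈ M, FF w ∧ LeF x w ∧ LeF w y := by
  have hN := st_KE M P F hM hP hF
  have hK' := pp_left hM hP hF hK
  obtain ⟨τ, hτ, rfl⟩ := hy
  have hQN := sub_ext hM hP hF hQ
  have hτN := sub_ext hM hP hF hτ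
  have h0 : ∅ ∈ Q := hK.sub hK.top
  obtain ⟨φ, hφ⟩ := ud2_iff.2 ip_leF.{u}
  have hv : ∀ i, (![chk x, τ] : Fin 2 → ZFSet.{u}) i ∈ Ext M F := by
    intro i
    fin_cases i
    · exact chk_mem hN.zf hx
    · exact hτN
  have hiff : ∀ G, IsGeneric (Ext M F) Q G → (Sat (Ext (Ext M F) G) ∅ φ
      (fun i => val G ((![chk x, τ] : Fin 2 → ZFSet.{u}) i)) ↔ LeF x (val G τ)) := by
    intro G hG
    have hE := st_KE (Ext M F) Q G hN hQN hG
    have h1 := hφ (Ext (Ext M F) G) ∅ hE.zf (fun i => val G ((![chk x, τ] : Fin 2 → ZFSet.{u}) i)) (by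
      intro i
      exact ⟨_, hv i, rfl⟩)
    rw [h1]
    change LeF (val G (chk x)) (val G τ) ↔ _
    rw [val_chk' hN hQN hG hx]
  obtain ⟨q, hq, hqf⟩ := st_KT (Ext M F) Q K hN hQN hK 2 φ ![chk x, τ] hv ((hiff K hK).2 hxy)
  have hqQ : q ∈ Q := hK.sub hq
  obtain ⟨D, hD, hD'⟩ := st_KD M Q hM hQ h0 1 (.mem 0 1) (fun _ => τ) (fun _ => hτ)
    (ZFSet.omega.prod ZFSet.omega) (ip_om hM)
  have hpr : ∀ i j : ℕ, (pair (nat i) (nat j) : ZFSet.{u}) ∈ ZFSet.omega.prod ZFSet.omega := fun i j =>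
    pair_mem_prod.2 ⟨nat_mem_omega i, nat_mem_omega j⟩
  have E1 : ∀ i j : ℕ, pair (nat i) (nat j) ∈ val K τ →
      ∃ r ∈ Q, q ⊆ r ∧ pair (pair (nat i) (nat j)) r ∈ D := by
    intro i j hij
    have htM : (pair (nat i) (nat j) : ZFSet.{u}) ∈ M := hM.zf.trans _ (ip_om hM) _ (hpr i j)
    obtain ⟨p, hp, h⟩ := st_KT M Q K hM hQ hK' 2 (.mem 0 1) ![chk (pair (nat i) (nat j)), τ] (by
      intro i
      fin_cases i
      · exact chk_mem hM.zf htM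
      · exact hτ) (by
      change val K (chk _) ∈ val K τ
      rwa [val_chk' hM hQ hK' htM])
    obtain ⟨r, hr, hqr, hpr'⟩ := hK.dir q hq p hp
    refine ⟨r, hK.sub hr, hqr, (hD' _ (hpr i j) r (hK.sub hr)).2 ?_⟩
    intro G hG hrG
    have h1 := h G hG (hG.up r hrG p (hK.sub hp) hpr')
    change val G (chk _) ∈ val G τ at h1
    rw [val_chk' hM hQ hG htM] at h1
    exact h1
  have E2 : ∀ i j : ℕ, (∃ r ∈ Q, q ⊆ r ∧ pair (pair (nat i) (nat j)) r ∈ D) →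
      ∀ m, pair (nat i) m ∈ x → m ⊆ nat j := by
    rintro i j ⟨r, hr, hqr, hrD⟩ m hm
    obtain ⟨G, hG, hrG⟩ := exists_generic hN hQN h0 hr
    have hqG := hG.up r hrG q hqQ hqr
    have h1 := (hiff G hG).1 (hqf G hG hqG)
    have h2 := (hD' _ (hpr i j) r hr).1 hrD G (pp_left hM hP hF hG) hrG
    change pair (nat i) (nat j) ∈ val G τ at h2
    exact h1 _ _ _ hm h2
  have hex : ∀ i : ℕ, ∃ j : ℕ, ∃ r ∈ Q, q ⊆ r ∧ pair (pair (nat i) (nat j)) r ∈ D := by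
    intro i
    obtain ⟨m, hm, _⟩ := fy.2 (nat i) (nat_mem_omega i)
    have hm' := (pair_mem_prod.1 (fy.1 hm)).2
    obtain ⟨j, rfl⟩ := mem_omega.1 hm'
    exact ⟨j, E1 i j hm⟩
  set w : ZFSet.{u} := (ZFSet.omega.prod ZFSet.omega : ZFSet.{u}).sep (fun t =>
    (∃ r ∈ Q, q ⊆ r ∧ pair t r ∈ D) ∧
      ∀ m ∈ psnd t, ¬ ∃ r ∈ Q, q ⊆ r ∧ pair (pair (pfst t) m) r ∈ D) with hw
  have hmem : ∀ i j : ℕ, pair (nat i) (nat j) ∈ w ↔
      (∃ r ∈ Q, q ⊆ r ∧ pair (pair (nat i) (nat j)) r ∈ D) ∧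
      ∀ k < j, ¬ ∃ r ∈ Q, q ⊆ r ∧ pair (pair (nat i) (nat k)) r ∈ D := by
    intro i j
    rw [hw, ZFSet.mem_sep, pfst_pair, psnd_pair]
    constructor
    · rintro ⟨_, h1, h2⟩
      exact ⟨h1, fun k hk => h2 _ (nat_mem_nat.2 hk)⟩
    · rintro ⟨h1, h2⟩
      refine ⟨hpr i j, h1, fun m hm => ?_⟩
      obtain ⟨k, hk, rfl⟩ := mem_nat.1 hm
      exact h2 k hk
  have hwp : w ⊆ ZFSet.omega.prod ZFSet.omega := fun t ht => (ZFSet.mem_sep.1 ht).1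
  have hqM : q ∈ M := hM.zf.trans Q hQ q hqQ
  refine ⟨w, ip_w hM hQ hD hqM, ⟨hwp, ?_⟩, ?_, ?_⟩
  · intro n hn
    obtain ⟨i, rfl⟩ := mem_omega.1 hn
    refine ⟨nat (Nat.find (hex i)), (hmem i _).2 ⟨Nat.find_spec (hex i), fun k hk => Nat.find_min (hex i) hk⟩, ?_⟩
    intro m hm
    obtain ⟨j, rfl⟩ := mem_omega.1 (pair_mem_prod.1 (hwp hm)).2
    obtain ⟨h1, h2⟩ := (hmem i j).1 hm
    rw [nat_inj]
    refine le_antisymm ?_ (Nat.find_min' (hex i) h1)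
    by_contra hlt
    exact h2 _ (not_le.1 hlt) (Nat.find_spec (hex i))
  · intro n m m' h1 h2
    obtain ⟨i, rfl⟩ := mem_omega.1 (pair_mem_prod.1 (hwp h2)).1
    obtain ⟨j, rfl⟩ := mem_omega.1 (pair_mem_prod.1 (hwp h2)).2
    exact E2 i j ((hmem i j).1 h2).1 m h1
  · intro n m m' h1 h2
    obtain ⟨i, rfl⟩ := mem_omega.1 (pair_mem_prod.1 (hwp h1)).1
    obtain ⟨j, rfl⟩ := mem_omega.1 (pair_mem_prod.1 (hwp h1)).2
    obtain ⟨k, rfl⟩ := mem_omega.1 (pair_mem_prod.1 (fy.1 h2)).2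
    have hjk : j ≤ k := by
      by_contra hlt
      exact ((hmem i j).1 h1).2 k (not_le.1 hlt) (E1 i k h2)
    intro z hz
    obtain ⟨l, hl, rfl⟩ := mem_nat.1 hz
    exact nat_mem_nat.2 (by omega)

theorem st_IP : ST_IP.{u} := by
  intro M P Q F K hM hP hQ hF hK
  refine ⟨fun x hx y hy _ fy hxy => ip1 hM hP hQ hF hK hx hy fy hxy, ?_⟩
  intro x hx y hy fx _ hyx
  exact ip1 hM hQ hP (pp_left hM hP hF hK) (pp_right hM hP hQ hF hK) hy hx fx hyx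

end Pool.Agent.Helper58.GP
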